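import Pool.Agent.Run7.h442.T3.Trf

set_option autoImplicit false

/-!
# The uniform Anderson model in dimension two: diffusion beyond the mean free time

`Δ_ω = -Δ + ω` on `ℓ²(ℤ²)`, `ω_j` i.i.d. uniform on `[-c, c]`, `c` small. For all energies `E` in
compact parts of `(0, 4) ∪ (4, 8)` and all spectral widths `t` with `c ^ (2 + κ) ≤ t ≤ s c²`,
`κ < 2 / 15`, the density `x ↦ |(Δ_ω - E - i t)⁻¹(0, x)|²` is, at momenta of order `c √t` and in mean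
square over the disorder, the diffusive one, with the diffusion constant of kinetic theory. The same
for `ω = λ v`, `v` i.i.d. with any other law of bounded support which is not a point mass.
-/

namespace Run7.h251.AN.QD

open MeasureTheory ProbabilityTheory Filter Topology

noncomputable section

/-- `u` is square summable and `(Δ_ω - z) u = δ_0`, i.e. `u = (Δ_ω - z)⁻¹ δ_0`, where
`(Δ_ω u)(x) = -∑_{|n| = 1} (u(x + n) - u(x)) + ω_x u(x)` on `ℤ²`. -/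
def IsGreen (z : ℂ) (ω : (Fin 2 → ℤ) → ℝ) (u : (Fin 2 → ℤ) → ℂ) : Prop :=
  (Summable fun x => ‖u x‖ ^ 2) ∧
  ∀ x, -(∑ i : Fin 2, ((u (x + Pi.single i 1) - u x) + (u (x - Pi.single i 1) - u x))) +
    ((ω x : ℝ) : ℂ) * u x - z * u x = if x = 0 then 1 else 0

/-- The Fourier transform `∑_x exp (i p·x) |u x|²` of the density of `u`. -/
def dens (u : (Fin 2 → ℤ) → ℂ) (p : Fin 2 → ℝ) : ℂ :=
  ∑' x : Fin 2 → ℤ, Complex.exp (Complex.I * ((∑ i, p i * x i : ℝ) : ℂ)) * ((‖u x‖ ^ 2 : ℝ) : ℂ)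

/-- `(2 π)^(-2) ∫_{[0, 2 π]^2} f(k) δ_η(e(k) - E) dk` with `e(k) = ∑ (2 - 2 cos k_i)`, the symbol of
`-Δ`, and the Poisson kernel `δ_η(x) = π⁻¹ η / (x² + η²)`. -/
def shell (f : (Fin 2 → ℝ) → ℝ) (E η : ℝ) : ℝ :=
  ((2 * Real.pi) ^ 2)⁻¹ * ∫ k in Set.Icc (0 : Fin 2 → ℝ) (fun _ => 2 * Real.pi),
    f k * (Real.pi⁻¹ * (η / ((∑ i, (2 - 2 * Real.cos (k i)) - E) ^ 2 + η ^ 2)))

/-- The potential `ω` being i.i.d. with law `μ`, of mean `m` and variance `v2`: for all `P` with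
`|P_i| ≤ M` and `G = (Δ_ω - (E + m) - i t)⁻¹ δ_0`,
`𝔼 |t ∑_x exp (i √(v2 t) P·x) |G(x)|² - π r / (1 + |P|² w / (4 π r²))|² ≤ ε`. -/
def Diffusive (μ : Measure ℝ) (m v2 E t r w M ε : ℝ) : Prop :=
  ∀ P : Fin 2 → ℝ, (∀ i, |P i| ≤ M) → ∀ G : ((Fin 2 → ℤ) → ℝ) → (Fin 2 → ℤ) → ℂ,
    (∀ ω, IsGreen (((E + m : ℝ) : ℂ) + (t : ℂ) * Complex.I) ω (G ω)) →
    Integrable (fun ω => ‖(t : ℂ) * dens (G ω) (fun i => Real.sqrt (v2 * t) * P i) -
      ((Real.pi * r / (1 + (∑ i, P i ^ 2) * (w / (4 * Real.pi * r ^ 2))) : ℝ) : ℂ)‖ ^ 2)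
      (Measure.infinitePi fun _ : Fin 2 → ℤ => μ) ∧
    ∫ ω, ‖(t : ℂ) * dens (G ω) (fun i => Real.sqrt (v2 * t) * P i) -
      ((Real.pi * r / (1 + (∑ i, P i ^ 2) * (w / (4 * Real.pi * r ^ 2))) : ℝ) : ℂ)‖ ^ 2
      ∂(Measure.infinitePi fun _ : Fin 2 → ℤ => μ) ≤ ε

/-- The uniform law on `[-c, c]`. -/
def unif (c : ℝ) : Measure ℝ :=
  ENNReal.ofReal (1 / (2 * c)) • volume.restrict (Set.Icc (-c) c)

theorem green_iff {σ m E t : ℝ} {ω V : (Fin 2 → ℤ) → ℝ} (hV : ∀ x, ω x = m + σ * V x)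
    {u : (Fin 2 → ℤ) → ℂ} :
    IsGreen (((E + m : ℝ) : ℂ) + (t : ℂ) * Complex.I) ω u ↔
      _root_.Pool.Agent.Run7.h47.IsGreen 2 (-σ) (((4 - E : ℝ) : ℂ) + (t : ℂ) * Complex.I) V
        (fun x => -(starRingEnd ℂ) (u x)) := by
  unfold IsGreen _root_.Pool.Agent.Run7.h47.IsGreen
  simp only [norm_neg, RCLike.norm_conj]
  refine and_congr_right fun _ => forall_congr' fun x => ?_
  have h1 : ∑ i : Fin 2, (-(starRingEnd ℂ) (u (x + Pi.single i 1)) +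
      -(starRingEnd ℂ) (u (x - Pi.single i 1))) + ((-σ : ℝ) : ℂ) * V x *
      -(starRingEnd ℂ) (u x) -
      (((4 - E : ℝ) : ℂ) + (t : ℂ) * Complex.I) * -(starRingEnd ℂ) (u x) =
      (starRingEnd ℂ) (-(∑ i : Fin 2, ((u (x + Pi.single i 1) - u x) +
        (u (x - Pi.single i 1) - u x))) + ((ω x : ℝ) : ℂ) * u x -
        (((E + m : ℝ) : ℂ) + (t : ℂ) * Complex.I) * u x) := by
    simp only [Fin.sum_univ_two, map_sub, map_add, map_mul, map_neg, Complex.conj_ofReal,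
      Complex.conj_I]
    rw [hV x]
    push_cast
    ring
  rw [h1]
  have h2 : (if x = 0 then (1 : ℂ) else 0) = (starRingEnd ℂ) (if x = 0 then (1 : ℂ) else 0) := by
    split_ifs <;> simp
  constructor
  · intro h
    rw [h, ← h2]
  · intro h
    have h3 := congrArg (starRingEnd ℂ) h
    rw [Complex.conj_conj] at h3
    rw [h3, ← h2]

theorem core (a b : ℝ) (ha : 0 < a) (hb : b < 4) (κ : ℝ) (hκ0 : 0 < κ) (hκ : κ < 2 / 15)
    (M ε : ℝ) (hM : 0 ≤ M) (hε : 0 < ε) (ν : Measure ℝ) [IsProbabilityMeasure ν] (R : ℝ)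
    (hR : ν (Set.Icc (-R) R)ᶜ = 0) (hν : ∀ c, ν {c} ≠ 1) :
    ∃ s : ℝ, 0 < s ∧ ∀ lam E t : ℝ, 0 < lam → lam ≤ s → a ≤ |E - 4| → |E - 4| ≤ b →
      lam ^ (2 + κ) ≤ t → t ≤ s * lam ^ 2 → ∀ (μ : Measure ℝ) [IsProbabilityMeasure μ],
      μ.map (fun s => s / lam) = ν →
      Diffusive μ (lam * ∫ s, s ∂ν) (lam ^ 2 * ∫ s, (s - ∫ s, s ∂ν) ^ 2 ∂ν) E t
        (_root_.Run7.h108.GL.D2.rr (4 - E)) (_root_.Run7.h108.GL.D2.ww (4 - E)) M ε := by
  obtain ⟨m, hmm⟩ : ∃ m, m = _root_.Run7.h108.GL.mean ν := ⟨_, rfl⟩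
  have hm' : ∫ s, s ∂ν = m := hmm.symm
  obtain ⟨v, hv⟩ : ∃ v, v = _root_.Run7.h108.GL.sd ν := ⟨_, rfl⟩
  have hv0 : 0 < v := hv ▸ _root_.Run7.h108.GL.sd_pos hR hν
  have hvv : ∫ s, (s - m) ^ 2 ∂ν = v ^ 2 := by
    rw [hv, hmm]
    unfold _root_.Run7.h108.GL.sd
    rw [Real.sq_sqrt (integral_nonneg fun s => sq_nonneg _)]
  rw [hm', hvv]
  let _ := _root_.Run7.h108.GL.lawNu ν R hR hν
  obtain ⟨κ', hκ'⟩ : ∃ κ', κ' = (κ + 2 / 15) / 2 := ⟨_, rfl⟩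
  have hκ1 : κ < κ' := by rw [hκ']; linarith
  have hκ2 : κ' < 2 / 15 := by rw [hκ']; linarith
  obtain ⟨s', hs', H⟩ := _root_.Run7.h108.GL.D2.qd a b ha hb κ' (hκ0.trans hκ1) hκ2 M ε hM hε
  obtain ⟨s1, hs1, H1⟩ := _root_.Pool.Agent.Run7.h47.small_pow (v ^ (2 + κ')) (κ' - κ) 1 (by linarith)
    one_pos
  refine ⟨min (min s1 (s' / v)) (s' * v ^ 2), by positivity, ?_⟩
  intro lam E t hlam hlams hE1 hE2 htl htu μ hμ hμν P hP G hG
  have hls1 : lam ≤ s1 := hlams.trans ((min_le_left _ _).trans (min_le_left _ _))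
  have hls2 : lam ≤ s' / v := hlams.trans ((min_le_left _ _).trans (min_le_right _ _))
  have ht0 : 0 ≤ t := le_trans (by positivity) htl
  have hσ : |(-(lam * v))| = lam * v := by
    rw [abs_neg, abs_of_pos (by positivity)]
  have c1 : 0 < |(-(lam * v))| := by rw [hσ]; positivity
  have c2 : |(-(lam * v))| ≤ s' := by
    rw [hσ]
    rwa [le_div_iff₀ hv0] at hls2
  have c3 : |(-(lam * v))| ^ (2 + κ') ≤ t := by
    rw [hσ, Real.mul_rpow hlam.le hv0.le]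
    refine le_trans ?_ htl
    have e1 : lam ^ (2 + κ') = lam ^ (2 + κ) * lam ^ (κ' - κ) := by
      rw [← Real.rpow_add hlam]
      congr 1
      ring
    have e2 := H1 lam hlam hls1
    have e3 : 0 < lam ^ (2 + κ) := by positivity
    calc lam ^ (2 + κ') * v ^ (2 + κ') =
        lam ^ (2 + κ) * (v ^ (2 + κ') * lam ^ (κ' - κ)) := by
          rw [e1]
          ring
      _ ≤ lam ^ (2 + κ) * 1 := mul_le_mul_of_nonneg_left e2 e3.le
      _ = _ := mul_one _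
  have c4 : t ≤ s' * (-(lam * v)) ^ 2 := by
    refine htu.trans ?_
    have e1 : s' * (-(lam * v)) ^ 2 = (s' * v ^ 2) * lam ^ 2 := by ring
    rw [e1]
    exact mul_le_mul_of_nonneg_right (min_le_right _ _) (by positivity)
  have hE1' : a ≤ |4 - E| := by rwa [abs_sub_comm]
  have hE2' : |4 - E| ≤ b := by rwa [abs_sub_comm]
  obtain ⟨g1, g2⟩ := H (-(lam * v)) (4 - E) t c1 c2 hE1' hE2' c3 c4 P hP
    (fun V x => -(starRingEnd ℂ) (G (fun y => lam * m + (lam * v) * V y) x))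
    (fun V => (green_iff (fun x => rfl)).1 (hG _))
  have hsq : Real.sqrt (lam ^ 2 * v ^ 2 * t) = lam * v * Real.sqrt t := by
    rw [← mul_pow, Real.sqrt_mul (by positivity), Real.sqrt_sq (by positivity)]
  have hlaw := _root_.Run7.h108.GL.D2.trf_inf ν R hR hν μ hμν (Fin 2 → ℤ)
  obtain ⟨Φ, hΦ⟩ : ∃ Φ : ((Fin 2 → ℤ) → ℝ) → ℝ, Φ = fun V => ‖(t : ℂ) *
      (∑' x : Fin 2 → ℤ, Complex.exp (Complex.I *
        ((∑ i, |(-(lam * v))| * Real.sqrt t * P i * x i : ℝ) : ℂ)) *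
        ((‖-(starRingEnd ℂ) (G (fun y => lam * m + (lam * v) * V y) x)‖ ^ 2 : ℝ) : ℂ)) -
      ((Real.pi * _root_.Run7.h108.GL.D2.rr (4 - E) / (1 + (∑ i, P i ^ 2) *
        (_root_.Run7.h108.GL.D2.ww (4 - E) /
          (4 * Real.pi * _root_.Run7.h108.GL.D2.rr (4 - E) ^ 2))) : ℝ) : ℂ)‖ ^ 2 :=
    ⟨_, rfl⟩
  have g1' : Integrable Φ (Measure.infinitePi fun _ : Fin 2 → ℤ =>
      (_root_.Run7.h108.GL.lawNu ν R hR hν).μ) := by
    rw [hΦ]
    exact g1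
  have g2' : ∫ V, Φ V ∂(Measure.infinitePi fun _ : Fin 2 → ℤ =>
      (_root_.Run7.h108.GL.lawNu ν R hR hν).μ) ≤ ε := by
    rw [hΦ]
    exact g2
  rw [← hlaw] at g1' g2'
  have hmeas : Measurable fun (ω : (Fin 2 → ℤ) → ℝ) (x : Fin 2 → ℤ) =>
      (ω x / lam - _root_.Run7.h108.GL.mean ν) / _root_.Run7.h108.GL.sd ν :=
    measurable_pi_iff.2 fun x => (((measurable_pi_apply x).div_const _).sub_const _).div_const _
  have g3 := g1'.comp_measurable hmeas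
  rw [integral_map hmeas.aemeasurable g1'.aestronglyMeasurable] at g2'
  have hfun : ∀ ω : (Fin 2 → ℤ) → ℝ,
      Φ (fun x => (ω x / lam - _root_.Run7.h108.GL.mean ν) / _root_.Run7.h108.GL.sd ν) =
      ‖(t : ℂ) * dens (G ω) (fun i => Real.sqrt (lam ^ 2 * v ^ 2 * t) * P i) -
      ((Real.pi * _root_.Run7.h108.GL.D2.rr (4 - E) / (1 + (∑ i, P i ^ 2) *
        (_root_.Run7.h108.GL.D2.ww (4 - E) /
          (4 * Real.pi * _root_.Run7.h108.GL.D2.rr (4 - E) ^ 2))) : ℝ) : ℂ)‖ ^ 2 := by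
    intro ω
    have e1 : (fun y => lam * m + (lam * v) * ((ω y / lam - _root_.Run7.h108.GL.mean ν) /
        _root_.Run7.h108.GL.sd ν)) = ω := by
      funext y
      rw [← hv, ← hmm]
      field_simp
      ring
    rw [hΦ, hsq]
    unfold dens
    simp only [hσ, norm_neg, RCLike.norm_conj]
    rw [e1]
  refine ⟨?_, ?_⟩
  · refine g3.congr (Filter.Eventually.of_forall fun ω => ?_)
    exact hfun ω
  · simp only [hfun] at g2'
    exact g2'

/-- Let `0 < a`, `b < 4` and `0 < κ < 2 / 15`. The Green function exists and is unique. For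
`a ≤ |E - 4| ≤ b` let `ρ(E)` be the density of states of `-Δ` and `w(E)` the same average of
`|∇e(k)|² / 2` (both are positive). For all `M` and `ε` there is `s > 0` such that for `0 < c ≤ s`,
`a ≤ |E - 4| ≤ b`, `c ^ (2 + κ) ≤ t ≤ s c²` and all `P` with `|P_i| ≤ M`, with `ω_j` i.i.d. uniform on
`[-c, c]` (variance `c² / 3`) and `G = (Δ_ω - E - i t)⁻¹ δ_0`,
`𝔼 |t ∑_x exp (i c √(t / 3) P·x) |G(x)|² - π ρ / (1 + |P|² w / (4 π ρ²))|² ≤ ε`.
With `p = c √(t / 3) P` and `D = 3 w / (2 π c² ρ²)` the limit is `t · 2 π ρ / (2 t + D |p|²)`, the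
diffusive form. The same for `ω = λ v`, `v` i.i.d. with any law `ν` of bounded support which is not a
point mass, at energies shifted by the mean of `ω`. -/
theorem result (a b : ℝ) (ha : 0 < a) (hb : b < 4) (κ : ℝ) (hκ0 : 0 < κ) (hκ : κ < 2 / 15) :
    (∀ (z : ℂ) (ω : (Fin 2 → ℤ) → ℝ), 0 < z.im → ∃! u, IsGreen z ω u) ∧
    ∃ ρ w : ℝ → ℝ,
      (∀ E : ℝ, a ≤ |E - 4| → |E - 4| ≤ b → 0 < ρ E ∧ 0 < w E ∧
        Tendsto (shell (fun _ => 1) E) (𝓝[>] 0) (𝓝 (ρ E)) ∧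
        Tendsto (shell (fun k => (∑ i, (2 * Real.sin (k i)) ^ 2) / 2) E) (𝓝[>] 0)
          (𝓝 (w E))) ∧
      ∀ M ε : ℝ, 0 ≤ M → 0 < ε →
        (∃ s : ℝ, 0 < s ∧ ∀ c E t : ℝ, 0 < c → c ≤ s → a ≤ |E - 4| → |E - 4| ≤ b →
          c ^ (2 + κ) ≤ t → t ≤ s * c ^ 2 →
          Diffusive (unif c) 0 (c ^ 2 / 3) E t (ρ E) (w E) M ε) ∧
        ∀ (ν : Measure ℝ) [IsProbabilityMeasure ν] (R : ℝ), ν (Set.Icc (-R) R)ᶜ = 0 →
          (∀ c, ν {c} ≠ 1) →
          ∃ s : ℝ, 0 < s ∧ ∀ lam E t : ℝ, 0 < lam → lam ≤ s → a ≤ |E - 4| → |E - 4| ≤ b →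
            lam ^ (2 + κ) ≤ t → t ≤ s * lam ^ 2 →
            Diffusive (ν.map fun x => lam * x) (lam * ∫ x, x ∂ν)
              (lam ^ 2 * ∫ x, (x - ∫ y, y ∂ν) ^ 2 ∂ν) E t (ρ E) (w E) M ε := by
  refine ⟨fun z ω hz => ?_, fun E => _root_.Run7.h108.GL.D2.rr (4 - E),
    fun E => _root_.Run7.h108.GL.D2.ww (4 - E), fun E hE1 hE2 => ?_, fun M ε hM hε => ⟨?_, ?_⟩⟩
  · have h := _root_.Pool.Agent.Run7.h47.green_eu (d := 2) (σ := -1) (E := 4 - z.re) hz ω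
    obtain ⟨u, hu, huu⟩ := h
    have key : ∀ w : (Fin 2 → ℤ) → ℂ, IsGreen z ω w ↔
        _root_.Pool.Agent.Run7.h47.IsGreen 2 (-1) (((4 - z.re : ℝ) : ℂ) + (z.im : ℂ) * Complex.I) ω
          (fun x => -(starRingEnd ℂ) (w x)) := by
      intro w
      rw [← green_iff (σ := 1) (m := 0) (E := z.re) (t := z.im) (ω := ω) (V := ω)
        (fun x => by ring) (u := w)]
      have : (((z.re + 0 : ℝ) : ℂ) + (z.im : ℂ) * Complex.I) = z := by
        rw [add_zero, Complex.re_add_im]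
      rw [this]
    refine ⟨fun x => -(starRingEnd ℂ) (u x), ?_, fun w hw => ?_⟩
    · refine (key _).2 ?_
      simpa using hu
    · have h2 := huu _ ((key w).1 hw)
      funext x
      have h3 := congrFun h2 x
      rw [← h3]
      simp
  · have key : ∀ (f : (Fin 2 → ℝ) → ℝ) (E η : ℝ), shell f E η =
        Real.pi⁻¹ * ((2 * Real.pi) ^ 2)⁻¹ *
          ∫ k in Set.Icc (0 : Fin 2 → ℝ) (fun _ => 2 * Real.pi),
            f k * (η / ((∑ i, 2 * Real.cos (k i) - (4 - E)) ^ 2 + η ^ 2)) := by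
      intro f E η
      unfold shell
      rw [mul_comm Real.pi⁻¹, mul_assoc]
      congr 1
      rw [← integral_const_mul]
      refine integral_congr_ae (Filter.Eventually.of_forall fun k => ?_)
      simp only [Fin.sum_univ_two]
      have e1 : (2 - 2 * Real.cos (k 0) + (2 - 2 * Real.cos (k 1)) - E) ^ 2 =
          (2 * Real.cos (k 0) + 2 * Real.cos (k 1) - (4 - E)) ^ 2 := by ring
      rw [e1]
      ring
    obtain ⟨b1, b2, b3, b4⟩ := _root_.Run7.h108.GL.D2.base a b ha hb (4 - E)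
      (by rwa [abs_sub_comm]) (by rwa [abs_sub_comm])
    refine ⟨b1, b2, ?_, ?_⟩
    · refine b3.congr fun η => ?_
      rw [key]
      simp only [one_mul]
    · exact b4.congr fun η => (key _ E η).symm
  · have := _root_.Run7.h108.GL.D2.unif_prob one_pos
    obtain ⟨s, hs, H⟩ := core a b ha hb κ hκ0 hκ M ε hM hε (_root_.Run7.h108.GL.D2.unif 1) 1
      (_root_.Run7.h108.GL.D2.unif_supp 1) (_root_.Run7.h108.GL.D2.unif_atom 1)
    refine ⟨s, hs, fun c E t hc hcs hE1 hE2 ht1 ht2 => ?_⟩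
    have := _root_.Run7.h108.GL.D2.unif_prob hc
    have h := H c E t hc hcs hE1 hE2 ht1 ht2 (_root_.Run7.h108.GL.D2.unif c)
      (_root_.Run7.h108.GL.D2.unif_scale c hc)
    rw [_root_.Run7.h108.GL.D2.unif_mean] at h
    simp only [sub_zero] at h
    rw [_root_.Run7.h108.GL.D2.unif_sq, mul_zero, mul_one_div] at h
    exact h
  · intro ν _ R hR hν
    obtain ⟨s, hs, H⟩ := core a b ha hb κ hκ0 hκ M ε hM hε ν R hR hν
    refine ⟨s, hs, fun lam E t hc hcs hE1 hE2 ht1 ht2 => ?_⟩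
    have hme : Measurable fun x : ℝ => lam * x := measurable_const_mul lam
    have := Measure.isProbabilityMeasure_map (μ := ν) hme.aemeasurable
    refine H lam E t hc hcs hE1 hE2 ht1 ht2 (ν.map fun x => lam * x) ?_
    rw [Measure.map_map (by fun_prop) hme]
    have : ((fun s : ℝ => s / lam) ∘ fun x => lam * x) = id := by
      funext x
      simp only [Function.comp_apply, id]
      field_simp
    rw [this, Measure.map_id]

end

end Run7.h251.AN.QD
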